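import Mathlib
import Pool.Agent.H22.HyZ

set_option autoImplicit false

namespace Pool.Agent.Results.MP_592f63_co.HoffmanMonotone

open MeasureTheory UpperHalfPlane

/-- The function `A_d f`: the mean value of `f` over the hyperbolic circle of radius `d` centred
at `z`, with respect to normalised arc length (one-dimensional Hausdorff measure of the hyperbolic
metric, restricted to the circle).
`ℍ` is the hyperbolic plane of curvature `-1` in the upper half plane model, with Mathlib's
hyperbolic distance and invariant measure `volume`, which is `dx dy / y ^ 2`. -/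
noncomputable def circleMean (d : ℝ) (f : ℍ → ℂ) (z : ℍ) : ℂ :=
  ⨍ w in Metric.sphere z d, f w ∂(μH[1])

/-- The set of all values `⟨A_d f, f⟩ = ∫ (A_d f) * conj f` with `f` in `L ^ 2` and
`‖f‖_2 = 1`. (The values are real because `A_d` is self-adjoint.) -/
noncomputable def formValues (d : ℝ) : Set ℝ :=
  {x : ℝ | ∃ f : ℍ → ℂ, MemLp f 2 (volume : Measure ℍ) ∧ ∫ z, ‖f z‖ ^ 2 = 1 ∧
    x = (∫ z, circleMean d f z * (starRingEnd ℂ) (f z)).re}

/-- The Hoffman bound `h(d) = 1 - M(A_d) / m(A_d)`, with `M(A_d)` the supremum and `m(A_d)` the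
infimum of `⟨A_d f, f⟩` over unit vectors. -/
noncomputable def hoffman (d : ℝ) : ℝ := 1 - sSup (formValues d) / sInf (formValues d)

theorem formValues_eq {d : ℝ} (hd : 0 < d) : formValues d = Pool.Agent.H22.Hy.formSet hd :=
  Pool.Agent.H22.Hy.formSet_eq hd

/-- For every `d > 0` the circle means of an `L ^ 2` function are again in `L ^ 2`, the values of
the quadratic form on unit vectors are bounded with `m(A_d) < 0 < M(A_d)`, and the Hoffman bound
is monotonically increasing in `d`. -/
theorem result :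
    (∀ d : ℝ, 0 < d →
      (∀ f : ℍ → ℂ, MemLp f 2 (volume : Measure ℍ) → MemLp (circleMean d f) 2 (volume : Measure ℍ)) ∧
      BddAbove (formValues d) ∧ BddBelow (formValues d) ∧
      0 < sSup (formValues d) ∧ sInf (formValues d) < 0) ∧
    ∀ d d' : ℝ, 0 < d → d ≤ d' → hoffman d ≤ hoffman d' := by
  constructor
  · intro d hd
    refine ⟨fun f hf => Pool.Agent.H22.Hy.circleMean_memLp hd hf, ?_, ?_, ?_, ?_⟩
    · rw [formValues_eq hd]
      exact ⟨_, Pool.Agent.H22.Hy.formSet_upper hd⟩
    · rw [formValues_eq hd]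
      exact ⟨_, Pool.Agent.H22.Hy.formSet_lower hd⟩
    · rw [formValues_eq hd, Pool.Agent.H22.Hy.sSup_formSet hd]
      exact Pool.Agent.H22.Hy.ph_zero_pos hd
    · rw [formValues_eq hd, Pool.Agent.H22.Hy.sInf_formSet hd]
      exact Pool.Agent.H22.Hy.inf_neg hd
  · intro d d' hd hdd
    have hd' : 0 < d' := lt_of_lt_of_le hd hdd
    unfold hoffman
    rw [formValues_eq hd, formValues_eq hd', Pool.Agent.H22.Hy.sSup_formSet hd,
      Pool.Agent.H22.Hy.sSup_formSet hd', Pool.Agent.H22.Hy.sInf_formSet hd,
      Pool.Agent.H22.Hy.sInf_formSet hd']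
    exact Pool.Agent.H22.Hy.hoffman_mono hd hdd

end Pool.Agent.Results.MP_592f63_co.HoffmanMonotone
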